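import Mathlib

/-!
# The linear majorant of `ln C(n, a)` in `a (n - a)` through the level `s`, `n = 2 s + k`

`La n k = (1 / k) ln ((n + 1 + k) / (n + 1 - k))`; `binconv`:
`ln C(n, a) ≤ ln C(n, s) + La n k (a (n - a) - s (n - s))` for all `a ≤ n`.
-/

set_option autoImplicit false

namespace Pool.Agent.Hyb

open Finset Real

/-- `f(c) = ln ((N + c) / (N - c))` -/
noncomputable def fl (N c : ℝ) : ℝ := log ((N + c) / (N - c))

/-- the slope at the level `s` -/
noncomputable def La (n k : ℕ) : ℝ := fl ((n : ℝ) + 1) k / k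

private theorem fl_eq {N c : ℝ} (hN : 0 < N) (h1 : -N < c) (h2 : c < N) :
    fl N c = log (1 + c / N) - log (1 - c / N) := by
  have h3 : 0 < 1 + c / N := by
    have : 1 + c / N = (N + c) / N := by field_simp
    rw [this]; apply div_pos <;> linarith
  have h4 : 0 < 1 - c / N := by
    have : 1 - c / N = (N - c) / N := by field_simp
    rw [this]; apply div_pos <;> linarith
  rw [fl, ← Real.log_div h3.ne' h4.ne']
  congr 1
  have h5 : N - c ≠ 0 := by linarith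
  have h6 : 1 - c / N ≠ 0 := h4.ne'
  field_simp

private theorem fl_sum {N c : ℝ} (hN : 0 < N) (h1 : 0 ≤ c) (h2 : c < N) :
    HasSum (fun k : ℕ => (2 : ℝ) * (1 / (2 * k + 1)) * (c / N) ^ (2 * k + 1)) (fl N c) := by
  rw [fl_eq hN (by linarith) h2]
  apply Real.hasSum_log_sub_log_of_abs_lt_one
  rw [abs_of_nonneg (by positivity), div_lt_one hN]
  exact h2

/-- `f(c) / c` increases -/
theorem fl_mono {N x y : ℝ} (hN : 0 < N) (hx : 0 ≤ x) (hxy : x ≤ y) (hy : y < N) :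
    y * fl N x ≤ x * fl N y := by
  have h1 := (fl_sum hN hx (by linarith)).mul_left y
  have h2 := (fl_sum hN (hx.trans hxy) hy).mul_left x
  refine hasSum_le (fun k => ?_) h1 h2
  have h3 : 0 ≤ y := hx.trans hxy
  have h4 : (x / N) ^ (2 * k) ≤ (y / N) ^ (2 * k) := by gcongr
  have h5 : y * (2 * (1 / (2 * (k : ℝ) + 1)) * (x / N) ^ (2 * k + 1)) =
      (2 * (1 / (2 * (k : ℝ) + 1)) * (x * y / N)) * (x / N) ^ (2 * k) := by
    rw [pow_succ]; ring
  have h6 : x * (2 * (1 / (2 * (k : ℝ) + 1)) * (y / N) ^ (2 * k + 1)) =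
      (2 * (1 / (2 * (k : ℝ) + 1)) * (x * y / N)) * (y / N) ^ (2 * k) := by
    rw [pow_succ]; ring
  rw [h5, h6]
  apply mul_le_mul_of_nonneg_left h4
  positivity

theorem fl_ge {N x : ℝ} (hN : 0 < N) (hx : 0 ≤ x) (hx1 : x < N) : 2 * x / N ≤ fl N x := by
  have h1 := fl_sum hN hx hx1
  have h2 : (2 : ℝ) * (1 / (2 * ((0 : ℕ) : ℝ) + 1)) * (x / N) ^ (2 * 0 + 1) ≤ fl N x := by
    refine le_hasSum h1 0 fun j _ => ?_
    positivity
  refine le_trans (le_of_eq ?_) h2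
  push_cast
  ring

theorem fl_le {N x : ℝ} (hN : 0 < N) (hx : 0 ≤ x) (hx1 : x < N) :
    fl N x ≤ 2 * x * N / (N ^ 2 - x ^ 2) := by
  have h1 := fl_sum hN hx hx1
  have hq0 : 0 ≤ (x / N) ^ 2 := by positivity
  have hq1 : (x / N) ^ 2 < 1 := by
    rw [div_pow, div_lt_one (by positivity)]
    nlinarith
  have h2 := (hasSum_geometric_of_lt_one hq0 hq1).mul_left (2 * (x / N))
  have h3 : fl N x ≤ 2 * (x / N) * (1 - (x / N) ^ 2)⁻¹ := by
    refine hasSum_le (fun k => ?_) h1 h2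
    rw [← pow_mul]
    have h4 : (1 : ℝ) / (2 * k + 1) ≤ 1 := by
      rw [div_le_one (by positivity)]
      have : (0 : ℝ) ≤ k := Nat.cast_nonneg k
      linarith
    have h5 : 0 ≤ 2 * (x / N) ^ (2 * k + 1) := by positivity
    have h6 : 2 * (x / N) * (x / N) ^ (2 * k) = 2 * (x / N) ^ (2 * k + 1) := by
      rw [pow_succ]; ring
    rw [h6]
    nlinarith
  refine h3.trans (le_of_eq ?_)
  have h7 : N ^ 2 - x ^ 2 ≠ 0 := by nlinarith
  have h8 : 1 - (x / N) ^ 2 = (N ^ 2 - x ^ 2) / N ^ 2 := by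
    field_simp
  rw [h8]
  field_simp

theorem La_ge {n k : ℕ} (hk : 1 ≤ k) (hkn : k ≤ n) : 2 / ((n : ℝ) + 1) ≤ La n k := by
  have hk0 : (0 : ℝ) < k := by exact_mod_cast hk
  have hkn' : (k : ℝ) ≤ n := by exact_mod_cast hkn
  have h := fl_ge (N := (n : ℝ) + 1) (x := k) (by positivity) hk0.le (by linarith)
  rw [La, le_div_iff₀ hk0]
  refine le_trans (le_of_eq ?_) h
  ring

theorem La_pos {n k : ℕ} (hk : 1 ≤ k) (hkn : k ≤ n) : 0 < La n k :=
  lt_of_lt_of_le (by positivity) (La_ge hk hkn)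

theorem La_le {n k : ℕ} (hk : 1 ≤ k) (hkn : k ≤ n) :
    La n k ≤ 2 * ((n : ℝ) + 1) / (((n : ℝ) + 1) ^ 2 - (k : ℝ) ^ 2) := by
  have hk0 : (0 : ℝ) < k := by exact_mod_cast hk
  have hkn' : (k : ℝ) ≤ n := by exact_mod_cast hkn
  have h := fl_le (N := (n : ℝ) + 1) (x := k) (by positivity) hk0.le (by linarith)
  rw [La, div_le_iff₀ hk0]
  refine h.trans (le_of_eq ?_)
  ring

/-- one step of the logarithms of the binomial coefficients -/
theorem step_log {n a : ℕ} (ha : a + 1 ≤ n) :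
    log (n.choose (a + 1)) = log (n.choose a) + fl ((n : ℝ) + 1) ((n : ℝ) - 1 - 2 * a) := by
  have h1 : (0 : ℝ) < (n.choose a : ℝ) := by exact_mod_cast Nat.choose_pos (by omega)
  have h2 : (0 : ℝ) < (n.choose (a + 1) : ℝ) := by exact_mod_cast Nat.choose_pos ha
  have h3 := Nat.choose_succ_right_eq n a
  have h4 : (n.choose (a + 1) : ℝ) * ((a : ℝ) + 1) = (n.choose a : ℝ) * ((n : ℝ) - a) := by
    have : ((n.choose (a + 1) * (a + 1) : ℕ) : ℝ) = ((n.choose a * (n - a) : ℕ) : ℝ) := by rw [h3]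
    rw [Nat.cast_mul, Nat.cast_mul, Nat.cast_sub (by omega)] at this
    push_cast at this
    exact this
  have h5 : (0 : ℝ) < (n : ℝ) - a := by
    have : (a : ℝ) + 1 ≤ n := by exact_mod_cast ha
    linarith
  have h6 : (0 : ℝ) < (a : ℝ) + 1 := by positivity
  have h7 := congrArg Real.log h4
  rw [Real.log_mul h2.ne' h6.ne', Real.log_mul h1.ne' h5.ne'] at h7
  have h8 : fl ((n : ℝ) + 1) ((n : ℝ) - 1 - 2 * a) = log ((n : ℝ) - a) - log ((a : ℝ) + 1) := by
    rw [fl, ← Real.log_div h5.ne' h6.ne']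
    congr 1
    have e1 : (n : ℝ) + 1 + ((n : ℝ) - 1 - 2 * a) = 2 * ((n : ℝ) - a) := by ring
    have e2 : (n : ℝ) + 1 - ((n : ℝ) - 1 - 2 * a) = 2 * ((a : ℝ) + 1) := by ring
    rw [e1, e2, mul_div_mul_left _ _ (by norm_num)]
  rw [h8]
  linarith

private theorem up {n s k : ℕ} (hn : n = 2 * s + k) (hk : 1 ≤ k) :
    ∀ j : ℕ, j ≤ s → log (n.choose (s - j)) ≤ log (n.choose s) +
      La n k * (((s - j : ℕ) : ℝ) * ((n : ℝ) - ((s - j : ℕ) : ℝ)) - (s : ℝ) * ((n : ℝ) - s)) := by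
  intro j
  induction j with
  | zero => intro _; simp
  | succ j ih =>
    intro hj
    have ih' := ih (by omega)
    set a := s - (j + 1) with ha
    have ha1 : s - j = a + 1 := by omega
    rw [ha1, step_log (by omega)] at ih'
    have hn' : (n : ℝ) = 2 * s + k := by rw [hn]; push_cast; ring
    have hk0 : (0 : ℝ) < k := by exact_mod_cast hk
    have has : (a : ℝ) + 1 ≤ s := by
      have : a + 1 ≤ s := by omega
      exact_mod_cast this
    have ha0 : (0 : ℝ) ≤ a := Nat.cast_nonneg a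
    set c : ℝ := (n : ℝ) - 1 - 2 * a with hc
    have hc1 : (k : ℝ) ≤ c := by rw [hc, hn']; linarith
    have h1 := fl_mono (N := (n : ℝ) + 1) (x := k) (y := c) (by positivity) hk0.le hc1
      (by rw [hc]; linarith)
    have h2 : La n k * c ≤ fl ((n : ℝ) + 1) c := by
      rw [La, div_mul_eq_mul_div, div_le_iff₀ hk0]
      linarith
    push_cast at ih'
    have h3 : La n k * ((a + 1 : ℝ) * ((n : ℝ) - (a + 1)) - (s : ℝ) * ((n : ℝ) - s)) =
        La n k * ((a : ℝ) * ((n : ℝ) - a) - (s : ℝ) * ((n : ℝ) - s)) + La n k * c := by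
      rw [hc]; ring
    linarith

private theorem down {n s k : ℕ} (hn : n = 2 * s + k) (hk : 1 ≤ k) :
    ∀ j : ℕ, 2 * j ≤ k → log (n.choose (s + j)) ≤ log (n.choose s) +
      La n k * (((s + j : ℕ) : ℝ) * ((n : ℝ) - ((s + j : ℕ) : ℝ)) - (s : ℝ) * ((n : ℝ) - s)) := by
  intro j
  induction j with
  | zero => intro _; simp
  | succ j ih =>
    intro hj
    have ih' := ih (by omega)
    set a := s + j with ha
    have ha1 : s + (j + 1) = a + 1 := by omega
    rw [ha1, step_log (by omega)]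
    have hn' : (n : ℝ) = 2 * s + k := by rw [hn]; push_cast; ring
    have hk0 : (0 : ℝ) < k := by exact_mod_cast hk
    have haj : (a : ℝ) = s + j := by rw [ha]; push_cast; ring
    have hj1 : 2 * ((j : ℝ) + 1) ≤ k := by exact_mod_cast hj
    have hj0 : (0 : ℝ) ≤ j := Nat.cast_nonneg j
    have hs0 : (0 : ℝ) ≤ s := Nat.cast_nonneg s
    set c : ℝ := (n : ℝ) - 1 - 2 * a with hc
    have hc1 : c ≤ k := by rw [hc, hn', haj]; linarith
    have hc0 : 0 ≤ c := by rw [hc, hn', haj]; linarith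
    have h1 := fl_mono (N := (n : ℝ) + 1) (x := c) (y := k) (by positivity) hc0 hc1
      (by rw [hn']; linarith)
    have h2 : fl ((n : ℝ) + 1) c ≤ La n k * c := by
      rw [La, div_mul_eq_mul_div, le_div_iff₀ hk0]
      linarith
    push_cast
    have h3 : La n k * ((a + 1 : ℝ) * ((n : ℝ) - (a + 1)) - (s : ℝ) * ((n : ℝ) - s)) =
        La n k * ((a : ℝ) * ((n : ℝ) - a) - (s : ℝ) * ((n : ℝ) - s)) + La n k * c := by
      rw [hc]; ring
    linarith

/-- the linear majorant -/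
theorem binconv {n s k a : ℕ} (hn : n = 2 * s + k) (hk : 1 ≤ k) (ha : a ≤ n) :
    log (n.choose a) ≤ log (n.choose s) +
      La n k * ((a : ℝ) * ((n : ℝ) - a) - (s : ℝ) * ((n : ℝ) - s)) := by
  have main : ∀ b : ℕ, 2 * b ≤ n → log (n.choose b) ≤ log (n.choose s) +
      La n k * ((b : ℝ) * ((n : ℝ) - b) - (s : ℝ) * ((n : ℝ) - s)) := by
    intro b hb
    rcases Nat.le_total b s with h | h
    · have := up hn hk (s - b) (by omega)
      have e : s - (s - b) = b := by omega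
      rwa [e] at this
    · have := down hn hk (b - s) (by omega)
      have e : s + (b - s) = b := by omega
      rwa [e] at this
  rcases Nat.le_total (2 * a) n with h | h
  · exact main a h
  · have h1 := main (n - a) (by omega)
    rw [Nat.choose_symm ha, Nat.cast_sub ha] at h1
    refine h1.trans (le_of_eq ?_)
    ring

/-- exponential form -/
theorem binconv' {n s k a : ℕ} (hn : n = 2 * s + k) (hk : 1 ≤ k) (ha : a ≤ n) :
    (n.choose a : ℝ) ≤ (n.choose s : ℝ) *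
      exp (La n k * ((a : ℝ) * ((n : ℝ) - a) - (s : ℝ) * ((n : ℝ) - s))) := by
  have h1 : (0 : ℝ) < (n.choose a : ℝ) := by exact_mod_cast Nat.choose_pos ha
  have h2 : (0 : ℝ) < (n.choose s : ℝ) := by exact_mod_cast Nat.choose_pos (by omega)
  have h3 := Real.exp_le_exp.2 (binconv hn hk ha)
  rwa [Real.exp_add, Real.exp_log h1, Real.exp_log h2] at h3

/-- the cap -/
theorem cap {n s k a : ℕ} (hn : n = 2 * s + k) (hk : 1 ≤ k) (ha : a ≤ n) :
    (n.choose a : ℝ) ≤ (n.choose s : ℝ) * exp (La n k * (k : ℝ) ^ 2 / 4) := by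
  refine (binconv' hn hk ha).trans ?_
  have h2 : (0 : ℝ) < (n.choose s : ℝ) := by exact_mod_cast Nat.choose_pos (by omega)
  apply mul_le_mul_of_nonneg_left _ h2.le
  apply Real.exp_le_exp.2
  have h3 := La_pos hk (show k ≤ n by omega)
  have hn' : (n : ℝ) = 2 * s + k := by rw [hn]; push_cast; ring
  have h4 : (a : ℝ) * ((n : ℝ) - a) - (s : ℝ) * ((n : ℝ) - s) ≤ (k : ℝ) ^ 2 / 4 := by
    rw [hn']
    nlinarith [sq_nonneg (2 * (s : ℝ) + k - 2 * a)]
  have := mul_le_mul_of_nonneg_left h4 h3.le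
  linarith

/-- `Lam = La s (n - s)` -/
noncomputable def Lam (n s k : ℕ) : ℝ := La n k * ((s : ℝ) * ((n : ℝ) - s))

theorem Lam_le {n s k : ℕ} (hn : n = 2 * s + k) (hk : 1 ≤ k) :
    Lam n s k ≤ ((n : ℝ) + 1) / 2 := by
  have h1 := La_le hk (show k ≤ n by omega)
  have hn' : (n : ℝ) = 2 * s + k := by rw [hn]; push_cast; ring
  have hk0 : (0 : ℝ) < k := by exact_mod_cast hk
  have hs0 : (0 : ℝ) ≤ s := Nat.cast_nonneg s
  have h2 : (s : ℝ) * ((n : ℝ) - s) = ((n : ℝ) ^ 2 - (k : ℝ) ^ 2) / 4 := by rw [hn']; ring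
  have h3 : (0 : ℝ) < ((n : ℝ) + 1) ^ 2 - (k : ℝ) ^ 2 := by rw [hn']; nlinarith
  have h4 : (0 : ℝ) ≤ ((n : ℝ) ^ 2 - (k : ℝ) ^ 2) / 4 := by rw [hn']; nlinarith
  rw [Lam, h2]
  refine (mul_le_mul_of_nonneg_right h1 h4).trans ?_
  rw [div_mul_eq_mul_div, div_le_iff₀ h3]
  have h5 : (0 : ℝ) ≤ n := Nat.cast_nonneg n
  nlinarith

theorem le_Lam {n s k : ℕ} (hn : n = 2 * s + k) (hk : 1 ≤ k) :
    ((n : ℝ) ^ 2 - (k : ℝ) ^ 2) / (2 * ((n : ℝ) + 1)) ≤ Lam n s k := by
  have h1 := La_ge hk (show k ≤ n by omega)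
  have hn' : (n : ℝ) = 2 * s + k := by rw [hn]; push_cast; ring
  have hs0 : (0 : ℝ) ≤ s := Nat.cast_nonneg s
  have hk0 : (0 : ℝ) < k := by exact_mod_cast hk
  have h2 : (s : ℝ) * ((n : ℝ) - s) = ((n : ℝ) ^ 2 - (k : ℝ) ^ 2) / 4 := by rw [hn']; ring
  have h4 : (0 : ℝ) ≤ ((n : ℝ) ^ 2 - (k : ℝ) ^ 2) / 4 := by rw [hn']; nlinarith
  rw [Lam, h2]
  refine le_trans (le_of_eq ?_) (mul_le_mul_of_nonneg_right h1 h4)
  have h5 : (n : ℝ) + 1 ≠ 0 := by positivity
  field_simp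
  ring

end Pool.Agent.Hyb
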