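import Pool.Agent.VE.Pairs
import Pool.Agent.Hyb.Conv

/-!
# The entropy inequality for one antichain near the level `s`, with explicit constants

`n = 2 s + k`, `f = ln (|F| / C(n, s))`, `B = Lam + f`, `w(A) = La (|A| (n - |A|) - s (n - s)) - f`.
The members of size outside `[r, n - r]` are removed.
-/

set_option autoImplicit false

namespace Pool.Agent.Hyb

open Finset Real Pool.Agent.VE

variable {α : Type*} [DecidableEq α]

/-- the one-variable function -/
noncomputable def Hf (K y : ℝ) : ℝ := (K + 1) * (y - 1) - y * log y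

/-- members with sizes in `[r, n - r]` -/
def mid (S : Finset α) (r : ℕ) (F : Finset (Finset α)) : Finset (Finset α) :=
  F.filter fun A => r ≤ A.card ∧ A.card + r ≤ S.card

/-- `w(A)` -/
noncomputable def ww (n s k : ℕ) (f : ℝ) (a : ℕ) : ℝ :=
  La n k * ((a : ℝ) * ((n : ℝ) - a) - (s : ℝ) * ((n : ℝ) - s)) - f

theorem exp_quad {T v : ℝ} (hT : 0 ≤ T) (hv : v ≤ T) : 1 - v + v ^ 2 / (T + 2) ≤ exp (-v) := by
  rcases le_or_gt v 0 with h | h
  · have h1 := Real.quadratic_le_exp_of_nonneg (show 0 ≤ -v by linarith)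
    have h2 : v ^ 2 / (T + 2) ≤ v ^ 2 / 2 := by
      apply div_le_div_of_nonneg_left (sq_nonneg v) (by norm_num) (by linarith)
    have h3 : (-v) ^ 2 = v ^ 2 := by ring
    rw [h3] at h1
    linarith
  · -- `(v + 2) e^(-v) ≥ 2 - v`
    have h2 : v ^ 2 / (T + 2) ≤ v ^ 2 / (v + 2) := by
      apply div_le_div_of_nonneg_left (sq_nonneg v) (by linarith) (by linarith)
    have h3 : 1 - v + v ^ 2 / (v + 2) = (2 - v) / (v + 2) := by
      field_simp
      ring
    have h4 : (2 - v) / (v + 2) ≤ exp (-v) := by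
      rw [div_le_iff₀ (by linarith)]
      rcases le_or_gt 2 v with h5 | h5
      · have h6 : 0 ≤ exp (-v) * (v + 2) := by positivity
        linarith
      · have h6 : exp (-v) * exp v = 1 := by rw [← Real.exp_add]; simp
        -- `e^v ≤ (2 + v) / (2 - v)`
        have h7 : exp v * (2 - v) ≤ 2 + v := by
          have hs := Real.hasSum_log_sub_log_of_abs_lt_one (x := v / 2)
            (by rw [abs_of_pos (by linarith)]; linarith)
          have h8 : v ≤ log (1 + v / 2) - log (1 - v / 2) := by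
            have h9 := le_hasSum hs 0 fun j _ => by
              have : 0 ≤ v / 2 := by linarith
              positivity
            refine le_trans (le_of_eq ?_) h9
            push_cast
            ring
          rw [← Real.log_div (by linarith) (by linarith)] at h8
          have h10 := Real.exp_le_exp.2 h8
          rw [Real.exp_log (by apply div_pos <;> linarith)] at h10
          rw [le_div_iff₀ (by linarith)] at h10
          nlinarith
        have h8 : 0 < exp (-v) := Real.exp_pos _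
        have h9 := mul_le_mul_of_nonneg_left h7 h8.le
        have h10 : exp (-v) * (exp v * (2 - v)) = 2 - v := by
          rw [← mul_assoc, h6, one_mul]
        rw [h10] at h9
        linarith
    linarith

section core

variable {S : Finset α} {F : Finset (Finset α)} {s k r : ℕ} {T τ : ℝ}

theorem lym_part (hS : ∀ A ∈ F, A ⊆ S) (hF : IsAntichain (· ⊆ ·) (F : Set (Finset α)))
    (hne : F.Nonempty) (hn : S.card = 2 * s + k) (hk : 1 ≤ k) {f : ℝ}
    (hf : f = log ((F.card : ℝ) / (S.card.choose s : ℝ))) (hT0 : 0 ≤ T)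
    (hT : La S.card k * (k : ℝ) ^ 2 / 4 - f ≤ T) (hτ0 : 0 < τ)
    (hW : ∀ a ≤ S.card, (a < r ∨ S.card < a + r) → (S.card.choose a : ℝ) ≤ τ * F.card) :
    (∑ A ∈ mid S r F, (ww S.card s k f A.card) ^ 2) / (T + 2) +
      ((F.card : ℝ) - (mid S r F).card) * (1 / τ - 1) ≤
      ∑ A ∈ mid S r F, ww S.card s k f A.card := by
  set n := S.card with hnd
  have hN : (0 : ℝ) < F.card := by exact_mod_cast hne.card_pos
  have hC : (0 : ℝ) < (n.choose s : ℝ) := by exact_mod_cast Nat.choose_pos (by omega)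
  have hL := La_pos hk (show k ≤ n by omega)
  have hef : exp f * (n.choose s : ℝ) = F.card := by
    rw [hf, Real.exp_log (by positivity), div_mul_cancel₀ _ hC.ne']
  have hle : ∀ A ∈ F, A.card ≤ n := fun A hA => card_le_card (hS A hA)
  have hlym := lym (rel_of_antichain hS hF)
  have hrk : ∀ A ∈ F, rk S A = A.card := fun A hA => rk_of_subset (hS A hA)
  rw [sum_congr rfl fun A hA => by rw [hrk A hA]] at hlym
  have hsplit : ∑ A ∈ F, (1 : ℝ) / (n.choose A.card) =
      ∑ A ∈ mid S r F, (1 : ℝ) / (n.choose A.card) +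
      ∑ A ∈ F.filter (fun A => ¬(r ≤ A.card ∧ A.card + r ≤ S.card)),
        (1 : ℝ) / (n.choose A.card) := by
    rw [mid, sum_filter_add_sum_filter_not]
  rw [hsplit] at hlym
  have hcard : ((F.filter fun A => ¬(r ≤ A.card ∧ A.card + r ≤ S.card)).card : ℝ) =
      (F.card : ℝ) - (mid S r F).card := by
    have h := card_filter_add_card_filter_not (s := F)
      (fun A => r ≤ A.card ∧ A.card + r ≤ S.card)
    have h' : (mid S r F).card +
      (F.filter fun A => ¬(r ≤ A.card ∧ A.card + r ≤ S.card)).card = F.card := h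
    rw [← h']
    push_cast
    ring
  -- the removed part
  have h1 : ((F.card : ℝ) - (mid S r F).card) * (1 / (τ * F.card)) ≤
      ∑ A ∈ F.filter (fun A => ¬(r ≤ A.card ∧ A.card + r ≤ S.card)),
        (1 : ℝ) / (n.choose A.card) := by
    rw [← hcard, ← nsmul_eq_mul, ← sum_const]
    refine sum_le_sum fun A hA => ?_
    rw [mem_filter] at hA
    have h2 : A.card ≤ n := hle A hA.1
    have h3 : A.card < r ∨ n < A.card + r := by
      by_contra h
      push Not at h
      exact hA.2 h
    have h4 := hW A.card h2 h3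
    have h5 : (0 : ℝ) < (n.choose A.card : ℝ) := by exact_mod_cast Nat.choose_pos h2
    exact one_div_le_one_div_of_le h5 h4
  -- the main part
  have h2 : (∑ A ∈ mid S r F, (1 - ww n s k f A.card + (ww n s k f A.card) ^ 2 / (T + 2))) *
      (1 / (F.card : ℝ)) ≤ ∑ A ∈ mid S r F, (1 : ℝ) / (n.choose A.card) := by
    rw [sum_mul]
    refine sum_le_sum fun A hA => ?_
    rw [mid, mem_filter] at hA
    have h2 : A.card ≤ n := hle A hA.1
    have h5 : (0 : ℝ) < (n.choose A.card : ℝ) := by exact_mod_cast Nat.choose_pos h2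
    have h6 := binconv' hn hk h2
    have hw : ww n s k f A.card ≤ T := by
      refine le_trans ?_ hT
      unfold ww
      have h7 : (A.card : ℝ) * ((n : ℝ) - A.card) - (s : ℝ) * ((n : ℝ) - s) ≤
          (k : ℝ) ^ 2 / 4 := by
        have hn' : (n : ℝ) = 2 * s + k := by rw [hn]; push_cast; ring
        rw [hn']
        nlinarith [sq_nonneg (2 * (s : ℝ) + k - 2 * A.card)]
      have := mul_le_mul_of_nonneg_left h7 hL.le
      linarith
    have h7 := exp_quad hT0 hw
    have h8 : exp (-(ww n s k f A.card)) * (n.choose A.card : ℝ) ≤ F.card := by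
      have h9 : exp (-(ww n s k f A.card)) * ((n.choose s : ℝ) *
          exp (La n k * ((A.card : ℝ) * ((n : ℝ) - A.card) - (s : ℝ) * ((n : ℝ) - s)))) =
          F.card := by
        rw [← hef]
        have h10 : exp f = exp (-(ww n s k f A.card)) *
            exp (La n k * ((A.card : ℝ) * ((n : ℝ) - A.card) - (s : ℝ) * ((n : ℝ) - s))) := by
          rw [← Real.exp_add]
          congr 1
          unfold ww
          ring
        rw [h10]
        ring
      rw [← h9]
      exact mul_le_mul_of_nonneg_left h6 (Real.exp_pos _).le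
    calc (1 - ww n s k f A.card + (ww n s k f A.card) ^ 2 / (T + 2)) * (1 / (F.card : ℝ))
        ≤ exp (-(ww n s k f A.card)) * (1 / (F.card : ℝ)) :=
          mul_le_mul_of_nonneg_right h7 (by positivity)
      _ ≤ 1 / (n.choose A.card : ℝ) := by
          rw [mul_one_div, div_le_div_iff₀ hN h5, one_mul]
          exact h8
  rw [sum_add_distrib, sum_sub_distrib, sum_const, nsmul_eq_mul, mul_one, ← sum_div] at h2
  set N' : ℝ := ((mid S r F).card : ℝ)
  set S1 := ∑ A ∈ mid S r F, ww n s k f A.card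
  set S2 := ∑ A ∈ mid S r F, (ww n s k f A.card) ^ 2
  have h3 : (N' - S1 + S2 / (T + 2)) * (1 / (F.card : ℝ)) +
      ((F.card : ℝ) - N') * (1 / (τ * F.card)) ≤ 1 := by linarith
  have h4 : ((N' - S1 + S2 / (T + 2)) * (1 / (F.card : ℝ)) +
      ((F.card : ℝ) - N') * (1 / (τ * F.card))) * F.card =
      (N' - S1 + S2 / (T + 2)) + ((F.card : ℝ) - N') * (1 / τ) := by
    field_simp
  have h5 := mul_le_mul_of_nonneg_right h3 hN.le
  rw [h4] at h5
  linarith

theorem sum_YY (hS : ∀ A ∈ F, A ⊆ S) : ∑ p ∈ S.offDiag, (YY F p : ℝ) =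
    ∑ A ∈ F, (A.card : ℝ) * ((S.card : ℝ) - A.card) := by
  have h := sum_exch_const S F fun _ => (1 : ℝ)
  have h1 : ∑ p ∈ S.offDiag, (YY F p : ℝ) = ∑ p ∈ S.offDiag, ∑ A ∈ sec F p, (1 : ℝ) := by
    refine sum_congr rfl fun p _ => ?_
    rw [sum_const, nsmul_eq_mul, mul_one]
    rfl
  rw [h1, h]
  refine sum_congr rfl fun A hA => ?_
  rw [rk_of_subset (hS A hA), mul_one]

omit [DecidableEq α] in
theorem mid_sub : mid S r F ⊆ F := filter_subset _ _

/-- upper bound of the entropy of the pair counts -/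
theorem ent_part (hS : ∀ A ∈ F, A ⊆ S) (hF : IsAntichain (· ⊆ ·) (F : Set (Finset α)))
    (hne : (mid S r F).Nonempty) (hn : S.card = 2 * s + k) (hk : 1 ≤ k) (hr : 1 ≤ r) {f B : ℝ}
    (hf : f = log ((F.card : ℝ) / (S.card.choose s : ℝ)))
    (hT : La S.card k * (k : ℝ) ^ 2 / 4 - f ≤ T) (hB : B = Lam S.card s k + f) (hB0 : 0 < B)
    {M S1 S2 : ℝ}
    (hM : M = (∑ p ∈ S.offDiag, (YY (mid S r F) p : ℝ)) / ((S.card : ℝ) * ((S.card : ℝ) - 1)))
    (hS1 : S1 = ∑ A ∈ mid S r F, ww S.card s k f A.card)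
    (hS2 : S2 = ∑ A ∈ mid S r F, (ww S.card s k f A.card) ^ 2) (hS10 : 0 ≤ S1) :
    La S.card k * (th S.card r * ∑ p ∈ S.offDiag, (YY (mid S r F) p : ℝ) *
      log (YY (mid S r F) p / M)) ≤
      B * S1 + S2 + S2 / B + ((F.card : ℝ) - (mid S r F).card) * (B + T) := by
  set n := S.card with hnd
  set F' := mid S r F with hF'
  have hsub : ∀ A ∈ F', A ⊆ S := fun A hA => hS A (mid_sub hA)
  have hanti : IsAntichain (· ⊆ ·) (F' : Set (Finset α)) :=
    hF.subset (by exact_mod_cast mid_sub)
  have hsz : ∀ A ∈ F', r ≤ A.card ∧ A.card + r ≤ S.card := fun A hA => (mem_filter.1 hA).2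
  have hve := ve_pairs hr hsub hanti hne hsz M hM
  have hL := La_pos hk (show k ≤ n by omega)
  obtain ⟨A0, hA0⟩ := hne
  have hn2 : (2 : ℝ) ≤ n := by
    have h1 := hsz A0 hA0
    have : 2 ≤ n := by omega
    exact_mod_cast this
  have hP : 0 < (n : ℝ) * ((n : ℝ) - 1) := by apply mul_pos <;> linarith
  have hFne : (0 : ℝ) < F.card := by
    have : F.Nonempty := ⟨A0, mid_sub hA0⟩
    exact_mod_cast this.card_pos
  have hC : (0 : ℝ) < (n.choose s : ℝ) := by exact_mod_cast Nat.choose_pos (by omega)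
  set w : Finset α → ℝ := fun A => ww n s k f A.card with hw
  set x : Finset α → ℝ := fun A => B + w A with hx
  have hxq : ∀ A, La n k * ((A.card : ℝ) * ((n : ℝ) - A.card)) = x A := by
    intro A
    rw [hx, hw, hB]
    simp only [ww, Lam]
    ring
  have hq0 : ∀ A ∈ F', 0 < (A.card : ℝ) * ((n : ℝ) - A.card) := by
    intro A hA
    have h1 := hsz A hA
    have h2 : (1 : ℝ) ≤ A.card := by
      have : 1 ≤ A.card := by omega
      exact_mod_cast this
    have h3 : (A.card : ℝ) + 1 ≤ n := by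
      have : A.card + 1 ≤ n := by omega
      exact_mod_cast this
    apply mul_pos <;> linarith
  have hx0 : ∀ A ∈ F', 0 < x A := fun A hA => by
    rw [← hxq A]
    exact mul_pos hL (hq0 A hA)
  have hwT : ∀ A ∈ F', w A ≤ T := by
    intro A hA
    refine le_trans ?_ hT
    rw [hw]
    simp only [ww]
    have h7 : (A.card : ℝ) * ((n : ℝ) - A.card) - (s : ℝ) * ((n : ℝ) - s) ≤
        (k : ℝ) ^ 2 / 4 := by
      have hn' : (n : ℝ) = 2 * s + k := by rw [hn]; push_cast; ring
      rw [hn']
      nlinarith [sq_nonneg (2 * (s : ℝ) + k - 2 * A.card)]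
    have := mul_le_mul_of_nonneg_left h7 hL.le
    linarith
  set X : ℝ := ∑ A ∈ F', x A with hX
  have hX0 : 0 < X := sum_pos hx0 ⟨A0, hA0⟩
  have hQ : La n k * (∑ p ∈ S.offDiag, (YY F' p : ℝ)) = X := by
    rw [sum_YY hsub, mul_sum]
    exact sum_congr rfl fun A _ => hxq A
  have hMX : La n k * (M * ((n : ℝ) * ((n : ℝ) - 1))) = X := by
    rw [hM, div_mul_cancel₀ _ hP.ne', hQ]
  have hM0 : 0 < M := by
    by_contra h
    push Not at h
    have h1 : M * ((n : ℝ) * ((n : ℝ) - 1)) ≤ 0 := mul_nonpos_of_nonpos_of_nonneg h hP.le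
    have h2 : La n k * (M * ((n : ℝ) * ((n : ℝ) - 1))) ≤ 0 :=
      mul_nonpos_of_nonneg_of_nonpos hL.le h1
    linarith
  have hX' : X = (F'.card : ℝ) * B + S1 := by
    rw [hX, hx, hS1, sum_add_distrib, sum_const, nsmul_eq_mul]
  have hXB : (F'.card : ℝ) * B ≤ X := by linarith
  set W : ℝ := (F.card : ℝ) - F'.card with hWd
  have hW0 : 0 ≤ W := by
    have : (F'.card : ℝ) ≤ F.card := by exact_mod_cast card_le_card mid_sub
    linarith
  -- pointwise bound of the logarithm
  have hlog : ∀ A ∈ F', log ((n - 2).choose (A.card - 1) / M) ≤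
      w A + (F.card : ℝ) * x A / X - 1 := by
    intro A hA
    have h1 := hsz A hA
    have hid := choose_id (n := n) (a := A.card) (by omega) (by omega)
    have hc1 : (0 : ℝ) < ((n - 2).choose (A.card - 1) : ℝ) := by
      exact_mod_cast Nat.choose_pos (by omega)
    have hc2 : (0 : ℝ) < (n.choose A.card : ℝ) := by
      exact_mod_cast Nat.choose_pos (by omega)
    have h2 : ((n - 2).choose (A.card - 1) : ℝ) / M = (n.choose A.card : ℝ) * (x A / X) := by
      rw [div_eq_iff hM0.ne', mul_assoc, div_mul_eq_mul_div, mul_div_assoc', eq_div_iff hX0.ne']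
      rw [← hMX, ← hxq A]
      calc ((n - 2).choose (A.card - 1) : ℝ) * (La n k * (M * ((n : ℝ) * ((n : ℝ) - 1))))
          = La n k * M * (((n - 2).choose (A.card - 1) : ℝ) * ((n : ℝ) * ((n : ℝ) - 1))) := by ring
        _ = La n k * M * ((n.choose A.card : ℝ) * ((A.card : ℝ) * ((n : ℝ) - A.card))) := by
            rw [hid]
        _ = _ := by ring
    have hxX : 0 < x A / X := div_pos (hx0 A hA) hX0
    rw [h2, Real.log_mul hc2.ne' hxX.ne']
    have h3 := binconv hn hk (show A.card ≤ n by omega)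
    have h4 : log ((F.card : ℝ) * (x A / X)) = log (F.card : ℝ) + log (x A / X) :=
      Real.log_mul hFne.ne' hxX.ne'
    have h5 : log (F.card : ℝ) = f + log (n.choose s : ℝ) := by
      rw [hf, Real.log_div hFne.ne' hC.ne']
      ring
    have h6 := Real.log_le_sub_one_of_pos (show 0 < (F.card : ℝ) * (x A / X) by positivity)
    have h7 : (F.card : ℝ) * (x A / X) = (F.card : ℝ) * x A / X := by ring
    rw [h7] at h6 h4
    have h8 : w A = La n k * ((A.card : ℝ) * ((n : ℝ) - A.card) - (s : ℝ) * ((n : ℝ) - s)) - f :=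
      rfl
    linarith
  have h9 : La n k * ∑ A ∈ F', (A.card : ℝ) * ((n : ℝ) - A.card) *
      log ((n - 2).choose (A.card - 1) / M) ≤
      ∑ A ∈ F', x A * (w A + (F.card : ℝ) * x A / X - 1) := by
    rw [mul_sum]
    refine sum_le_sum fun A hA => ?_
    rw [← mul_assoc, hxq A]
    exact mul_le_mul_of_nonneg_left (hlog A hA) (hx0 A hA).le
  have hxw : ∑ A ∈ F', x A * w A = B * S1 + S2 := by
    rw [hS1, hS2, mul_sum, ← sum_add_distrib]
    refine sum_congr rfl fun A _ => ?_
    rw [hx]
    ring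
  have hxx : ∑ A ∈ F', (x A) ^ 2 = (F'.card : ℝ) * B ^ 2 + 2 * B * S1 + S2 := by
    rw [hS1, hS2, mul_sum, ← nsmul_eq_mul, ← sum_const, ← sum_add_distrib, ← sum_add_distrib]
    refine sum_congr rfl fun A _ => ?_
    rw [hx]
    ring
  have hxx' : ∑ A ∈ F', (x A) ^ 2 ≤ (B + T) * X := by
    rw [hX, mul_sum]
    refine sum_le_sum fun A hA => ?_
    have h1 : x A ≤ B + T := by
      have := hwT A hA
      rw [hx]
      simp only
      linarith
    have := mul_le_mul_of_nonneg_right h1 (hx0 A hA).le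
    rw [pow_two]
    exact this
  have h10 : ∑ A ∈ F', x A * (w A + (F.card : ℝ) * x A / X - 1) =
      B * S1 + S2 + ((F.card : ℝ) * ∑ A ∈ F', (x A) ^ 2) / X - X := by
    rw [← hxw, hX]
    rw [mul_sum, sum_div, ← sum_add_distrib, ← sum_sub_distrib]
    refine sum_congr rfl fun A _ => ?_
    ring
  have h11 : ((F.card : ℝ) * ∑ A ∈ F', (x A) ^ 2) / X - X ≤ S2 / B + W * (B + T) := by
    have h12 : (F.card : ℝ) = F'.card + W := by rw [hWd]; ring
    rw [h12, add_mul]
    have h13 : W * ∑ A ∈ F', (x A) ^ 2 ≤ (W * (B + T)) * X := by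
      rw [mul_assoc]
      exact mul_le_mul_of_nonneg_left hxx' hW0
    have h14 : (F'.card : ℝ) * ∑ A ∈ F', (x A) ^ 2 ≤ X ^ 2 + F'.card * S2 := by
      rw [hxx, hX']
      nlinarith [sq_nonneg S1]
    have h15 : (F'.card : ℝ) * S2 ≤ S2 / B * X := by
      have hS20 : 0 ≤ S2 := by rw [hS2]; exact sum_nonneg fun A _ => sq_nonneg _
      have h16 : S2 / B * (F'.card * B) ≤ S2 / B * X :=
        mul_le_mul_of_nonneg_left hXB (by positivity)
      have h17 : S2 / B * (F'.card * B) = F'.card * S2 := by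
        calc S2 / B * (F'.card * B) = F'.card * (S2 / B * B) := by ring
          _ = F'.card * S2 := by rw [div_mul_cancel₀ _ hB0.ne']
      linarith
    rw [sub_le_iff_le_add, div_le_iff₀ hX0]
    nlinarith
  calc La n k * (th n r * ∑ p ∈ S.offDiag, (YY F' p : ℝ) * log (YY F' p / M))
      ≤ La n k * ∑ A ∈ F', (A.card : ℝ) * ((n : ℝ) - A.card) *
        log ((n - 2).choose (A.card - 1) / M) := mul_le_mul_of_nonneg_left hve hL.le
    _ ≤ _ := h9
    _ = _ := h10
    _ ≤ _ := by linarith

/-- the entropy inequality with explicit constants -/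
theorem ve_core {K : ℝ} (hS : ∀ A ∈ F, A ⊆ S) (hF : IsAntichain (· ⊆ ·) (F : Set (Finset α)))
    (hne : F.Nonempty) (hn : S.card = 2 * s + k) (hk : 1 ≤ k) (hs : 1 ≤ s) (hr : 1 ≤ r) {f B : ℝ}
    (hf : f = log ((F.card : ℝ) / (S.card.choose s : ℝ))) (hT0 : 0 ≤ T)
    (hT : La S.card k * (k : ℝ) ^ 2 / 4 - f ≤ T) (hτ0 : 0 < τ) (hτ : τ ≤ 1 / 2)
    (hW : ∀ a ≤ S.card, (a < r ∨ S.card < a + r) → (S.card.choose a : ℝ) ≤ τ * F.card)
    (hB : B = Lam S.card s k + f) (hB0 : 0 < B) (hτB : 2 * τ * B ≤ 1) (hK : T / B ≤ K)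
    (hth : 0 < th S.card r)
    (hnum : B + (T + 2) * (1 + 1 / B) + 2 * τ * (B + T) ≤
      th S.card r * ((K - T / B) * (1 - 2 * τ * B))) :
    0 ≤ ∑ p ∈ S.offDiag, Hf K (YY (mid S r F) p /
      (((S.card - 2).choose (s - 1) : ℝ) * exp (f + log (1 + f / Lam S.card s k)))) := by
  set n := S.card with hnd
  set F' := mid S r F with hF'
  have hlym := lym_part hS hF hne hn hk hf hT0 hT hτ0 hW
  set S1 := ∑ A ∈ F', ww n s k f A.card with hS1
  set S2 := ∑ A ∈ F', (ww n s k f A.card) ^ 2 with hS2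
  have hN : (0 : ℝ) < F.card := by exact_mod_cast hne.card_pos
  have hC : (0 : ℝ) < (n.choose s : ℝ) := by exact_mod_cast Nat.choose_pos (by omega)
  have hL := La_pos hk (show k ≤ n by omega)
  set W : ℝ := (F.card : ℝ) - F'.card with hWd
  have hW0 : 0 ≤ W := by
    have : (F'.card : ℝ) ≤ F.card := by exact_mod_cast card_le_card mid_sub
    linarith
  have hS20 : 0 ≤ S2 := sum_nonneg fun A _ => sq_nonneg _
  have hτ' : 1 / (2 * τ) ≤ 1 / τ - 1 := by
    rw [le_sub_iff_add_le, div_add' _ _ _ (by positivity), div_le_div_iff₀ (by positivity) hτ0]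
    nlinarith
  have hT2 : 0 < T + 2 := by linarith
  have hWS : W ≤ 2 * τ * S1 := by
    have h1 : W * (1 / (2 * τ)) ≤ S1 := by
      have h2 := mul_le_mul_of_nonneg_left hτ' hW0
      have h3 : 0 ≤ S2 / (T + 2) := by positivity
      linarith
    rw [mul_one_div, div_le_iff₀ (by positivity)] at h1
    linarith
  have hS10 : 0 ≤ S1 := by
    by_contra h
    push Not at h
    have : 2 * τ * S1 < 0 := by nlinarith
    linarith
  have hSS : S2 ≤ (T + 2) * S1 := by
    have h1 : S2 / (T + 2) ≤ S1 := by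
      have h3 : 0 ≤ W * (1 / τ - 1) := by
        apply mul_nonneg hW0
        refine le_trans ?_ hτ'
        positivity
      linarith
    rw [div_le_iff₀ hT2] at h1
    linarith
  have hne' : F'.Nonempty := by
    rw [nonempty_iff_ne_empty]
    intro h
    have h1 : S1 = 0 := by rw [hS1, h, sum_empty]
    have h2 : W = F.card := by rw [hWd, h, card_empty]; push_cast; ring
    rw [h1, h2] at hWS
    linarith
  have hN' : (0 : ℝ) < F'.card := by exact_mod_cast hne'.card_pos
  set P : ℝ := (n : ℝ) * ((n : ℝ) - 1) with hPd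
  have hn3 : (3 : ℝ) ≤ n := by
    have : 3 ≤ n := by omega
    exact_mod_cast this
  have hP : 0 < P := by apply mul_pos <;> linarith
  set M : ℝ := (∑ p ∈ S.offDiag, (YY F' p : ℝ)) / P with hM
  have hent := ent_part hS hF hne' hn hk hr hf hT hB hB0 hM hS1 hS2 hS10
  set HHp := ∑ p ∈ S.offDiag, (YY F' p : ℝ) * log (YY F' p / M) with hHHp
  have hent' : La n k * (th n r * HHp) ≤
      S1 * (B + (T + 2) * (1 + 1 / B) + 2 * τ * (B + T)) := by
    refine hent.trans ?_
    have h1 : S2 / B ≤ (T + 2) * S1 / B := div_le_div_of_nonneg_right hSS hB0.le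
    have h2 : W * (B + T) ≤ 2 * τ * S1 * (B + T) :=
      mul_le_mul_of_nonneg_right hWS (by linarith)
    have h3 : (T + 2) * S1 / B = S1 * ((T + 2) * (1 / B)) := by ring
    nlinarith
  have hent2 : La n k * HHp ≤ S1 * ((K - T / B) * (1 - 2 * τ * B)) := by
    have h1 := mul_le_mul_of_nonneg_left hnum hS10
    have h2 : th n r * (La n k * HHp) ≤ th n r * (S1 * ((K - T / B) * (1 - 2 * τ * B))) := by
      calc th n r * (La n k * HHp) = La n k * (th n r * HHp) := by ring
        _ ≤ _ := hent'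
        _ ≤ _ := h1
        _ = _ := by ring
    exact le_of_mul_le_mul_left h2 hth
  -- the reference value
  have hLam0 : 0 < Lam n s k := by
    have h1 : (0 : ℝ) < (s : ℝ) * ((n : ℝ) - s) := by
      have h2 : (1 : ℝ) ≤ s := by exact_mod_cast hs
      have h3 : (s : ℝ) + 1 ≤ n := by
        have : s + 1 ≤ n := by omega
        exact_mod_cast this
      apply mul_pos <;> linarith
    exact mul_pos hL h1
  set Y := ((n - 2).choose (s - 1) : ℝ) * exp (f + log (1 + f / Lam n s k)) with hY
  have hYv : La n k * (Y * P) = F.card * B := by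
    have h1 : 1 + f / Lam n s k = B / Lam n s k := by
      rw [hB]
      field_simp
    have h2 : 0 < B / Lam n s k := div_pos hB0 hLam0
    have h3 : exp f = F.card / (n.choose s : ℝ) := by rw [hf, Real.exp_log (by positivity)]
    rw [hY, h1, Real.exp_add, Real.exp_log h2, h3]
    have hid := choose_id (n := n) (a := s) (by omega) (by omega)
    have h4 : Lam n s k = La n k * ((s : ℝ) * ((n : ℝ) - s)) := rfl
    calc La n k * (((n - 2).choose (s - 1) : ℝ) * (F.card / (n.choose s : ℝ) *
        (B / Lam n s k)) * P)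
        = La n k * ((((n - 2).choose (s - 1) : ℝ) * P) * (F.card / (n.choose s : ℝ) *
        (B / Lam n s k))) := by ring
      _ = La n k * (((n.choose s : ℝ) * ((s : ℝ) * ((n : ℝ) - s))) *
        (F.card / (n.choose s : ℝ) * (B / Lam n s k))) := by rw [hPd, hid]
      _ = Lam n s k * (n.choose s : ℝ) * (F.card / (n.choose s : ℝ) * (B / Lam n s k)) := by
          rw [h4]; ring
      _ = F.card * B := by field_simp
  have hY0 : 0 < Y := by
    rw [hY]
    have : (0 : ℝ) < ((n - 2).choose (s - 1) : ℝ) := by exact_mod_cast Nat.choose_pos (by omega)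
    positivity
  -- the average
  have hsub : ∀ A ∈ F', A ⊆ S := fun A hA => hS A (mid_sub hA)
  set ρ : ℝ := M / Y with hρ
  have hLM : La n k * (M * P) = F'.card * B + S1 := by
    rw [hM, div_mul_cancel₀ _ hP.ne', sum_YY hsub, mul_sum, hS1]
    rw [← nsmul_eq_mul, ← sum_const, ← sum_add_distrib]
    refine sum_congr rfl fun A _ => ?_
    rw [hB]
    simp only [ww, Lam]
    ring
  have hM0 : 0 < M := by
    have h1 : 0 < La n k * (M * P) := by
      rw [hLM]
      have : 0 < (F'.card : ℝ) * B := by positivity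
      linarith
    have h2 : 0 < M * P := (mul_pos_iff_of_pos_left hL).1 h1
    exact (mul_pos_iff_of_pos_right hP).1 h2
  have hρ0 : 0 < ρ := div_pos hM0 hY0
  have hρv : ρ * (F.card * B) = F'.card * B + S1 := by
    rw [← hYv, ← hLM, hρ]
    field_simp
  have hρ1 : (ρ - 1) * (F.card * B) = S1 - W * B := by
    rw [hWd]
    linarith
  have hlow : S1 * (1 - 2 * τ * B) ≤ (ρ - 1) * (F.card * B) := by
    rw [hρ1]
    have := mul_le_mul_of_nonneg_right hWS hB0.le
    linarith
  have hρ1' : 0 ≤ ρ - 1 := by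
    have h1 : 0 ≤ (ρ - 1) * (F.card * B) := by
      refine le_trans ?_ hlow
      apply mul_nonneg hS10
      linarith
    exact (mul_nonneg_iff_of_pos_right (by positivity)).1 h1
  have hup : ρ - 1 ≤ T / B := by
    have h1 : (ρ - 1) * (F.card * B) ≤ T * F.card := by
      rw [hρ1]
      have h2 : S1 ≤ T * F'.card := by
        rw [hS1]
        have h3 : ∀ A ∈ F', ww n s k f A.card ≤ T := by
          intro A hA
          refine le_trans ?_ hT
          unfold ww
          have h7 : (A.card : ℝ) * ((n : ℝ) - A.card) - (s : ℝ) * ((n : ℝ) - s) ≤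
              (k : ℝ) ^ 2 / 4 := by
            have hn' : (n : ℝ) = 2 * s + k := by rw [hn]; push_cast; ring
            rw [hn']
            nlinarith [sq_nonneg (2 * (s : ℝ) + k - 2 * A.card)]
          have := mul_le_mul_of_nonneg_left h7 hL.le
          linarith
        have h4 := sum_le_sum h3
        rw [sum_const, nsmul_eq_mul] at h4
        linarith
      have h5 : T * F'.card ≤ T * F.card := by
        apply mul_le_mul_of_nonneg_left _ hT0
        linarith
      have h6 : 0 ≤ W * B := mul_nonneg hW0 hB0.le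
      linarith
    rw [le_div_iff₀ hB0]
    have h2 : ((ρ - 1) * B) * F.card ≤ T * F.card := by linarith
    exact le_of_mul_le_mul_right h2 hN
  -- the sum
  have hsum : ∑ p ∈ S.offDiag, Hf K (YY F' p / Y) =
      (K + 1) * (P * ρ - P) - (HHp / Y + P * ρ * log ρ) := by
    have hcardP : ((S.offDiag.card : ℕ) : ℝ) = P := by
      rw [offDiag_card, Nat.cast_sub (Nat.le_mul_self _)]
      push_cast
      rw [hPd]
      ring
    have h1 : ∀ p ∈ S.offDiag, Hf K (YY F' p / Y) = (K + 1) * ((YY F' p : ℝ) / Y - 1) -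
        ((YY F' p : ℝ) * log (YY F' p / M) / Y + (YY F' p : ℝ) / Y * log ρ) := by
      intro p _
      unfold Hf
      rcases (Nat.cast_nonneg (YY F' p) : (0 : ℝ) ≤ YY F' p).eq_or_lt with h | h
      · rw [← h]; simp
      · have h2 : log ((YY F' p : ℝ) / Y) = log (YY F' p / M) + log ρ := by
          rw [hρ, Real.log_div h.ne' hY0.ne', Real.log_div h.ne' hM0.ne',
            Real.log_div hM0.ne' hY0.ne']
          ring
        rw [h2]
        ring
    rw [sum_congr rfl h1, sum_sub_distrib, ← mul_sum, sum_sub_distrib, sum_add_distrib,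
      ← sum_div, ← sum_div, ← sum_mul, ← sum_div, sum_const, nsmul_eq_mul, mul_one, hcardP]
    have h2 : (∑ p ∈ S.offDiag, (YY F' p : ℝ)) / Y = P * ρ := by
      rw [hρ, hM]
      field_simp
    rw [h2]
  rw [hsum]
  have hlog : log ρ ≤ ρ - 1 := Real.log_le_sub_one_of_pos hρ0
  have h1 : P * ρ * log ρ ≤ P * ρ * (ρ - 1) := mul_le_mul_of_nonneg_left hlog (by positivity)
  have h2 : HHp / Y ≤ P * (K - T / B) * (ρ - 1) := by
    rw [div_le_iff₀ hY0]
    have h3 : La n k * HHp ≤ La n k * (P * (K - T / B) * (ρ - 1) * Y) := by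
      calc La n k * HHp ≤ S1 * ((K - T / B) * (1 - 2 * τ * B)) := hent2
        _ = (K - T / B) * (S1 * (1 - 2 * τ * B)) := by ring
        _ ≤ (K - T / B) * ((ρ - 1) * (F.card * B)) :=
            mul_le_mul_of_nonneg_left hlow (by linarith)
        _ = (K - T / B) * ((ρ - 1) * (La n k * (Y * P))) := by rw [hYv]
        _ = _ := by ring
    exact le_of_mul_le_mul_left h3 hL
  have h3 : 0 ≤ P * (ρ - 1) * (T / B - (ρ - 1)) := by
    apply mul_nonneg
    · exact mul_nonneg hP.le hρ1'
    · linarith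
  nlinarith

end core

end Pool.Agent.Hyb
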